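import Mathlib

/-!
# Random subproducts: killing an irreducible representation

For a finite group `G` and a real representation `ρ` we consider words of pairs `(g, p)` with
`0 ≤ p ≤ 1` and the products of the operators `(1 - p) + p ρ(g)`.
-/

namespace Pool.Agent.Q11.Mix

open Finset

set_option linter.unusedSectionVars false

variable {G : Type*} [Group G] [Fintype G]

section General

variable {V : Type*} [AddCommGroup V] [Module ℝ V]

/-- The operator `(1 - p) + p ρ(g)`. -/
noncomputable def T (ρ : G →* Module.End ℝ V) (a : G × ℝ) : Module.End ℝ V :=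
  (1 - a.2) • (1 : Module.End ℝ V) + a.2 • ρ a.1

/-- The product of the operators of a word. -/
noncomputable def W (ρ : G →* Module.End ℝ V) (l : List (G × ℝ)) : Module.End ℝ V :=
  (l.map (T ρ)).prod

/-- All probabilities of the word lie in `[0, 1]`. -/
def Ok (l : List (G × ℝ)) : Prop := ∀ a ∈ l, 0 ≤ a.2 ∧ a.2 ≤ 1

theorem ok_nil : Ok ([] : List (G × ℝ)) := by
  intro a ha
  simp at ha

theorem ok_cons {a : G × ℝ} {l : List (G × ℝ)} (h0 : 0 ≤ a.2) (h1 : a.2 ≤ 1) (hl : Ok l) :
    Ok (a :: l) := by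
  intro b hb
  rcases List.mem_cons.1 hb with rfl | hb
  · exact ⟨h0, h1⟩
  · exact hl b hb

theorem ok_append {l m : List (G × ℝ)} (hl : Ok l) (hm : Ok m) : Ok (l ++ m) := by
  intro b hb
  rcases List.mem_append.1 hb with hb | hb
  · exact hl b hb
  · exact hm b hb

@[simp] theorem W_nil (ρ : G →* Module.End ℝ V) : W ρ [] = 1 := rfl

@[simp] theorem W_cons (ρ : G →* Module.End ℝ V) (a : G × ℝ) (l : List (G × ℝ)) :
    W ρ (a :: l) = T ρ a * W ρ l := by
  simp [W]

theorem W_append (ρ : G →* Module.End ℝ V) (l m : List (G × ℝ)) :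
    W ρ (l ++ m) = W ρ l * W ρ m := by
  simp [W]

theorem T_apply (ρ : G →* Module.End ℝ V) (a : G × ℝ) (v : V) :
    T ρ a v = (1 - a.2) • v + a.2 • ρ a.1 v := by
  simp [T]

end General

section Euclid

variable {E : Type*} [NormedAddCommGroup E] [InnerProductSpace ℝ E] [FiniteDimensional ℝ E]

/-- Irreducibility: no invariant subspaces but the trivial ones. -/
def Irr {V : Type*} [AddCommGroup V] [Module ℝ V] (ρ : G →* Module.End ℝ V) : Prop :=
  ∀ U : Submodule ℝ V, (∀ g, ∀ u ∈ U, ρ g u ∈ U) → U = ⊥ ∨ U = ⊤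

theorem span_top {V : Type*} [AddCommGroup V] [Module ℝ V] {ρ : G →* Module.End ℝ V}
    (hirr : Irr ρ) {y : V} (hy : y ≠ 0) :
    Submodule.span ℝ (Set.range fun g => ρ g y) = ⊤ := by
  have hinv : ∀ g, ∀ u ∈ Submodule.span ℝ (Set.range fun g => ρ g y),
      ρ g u ∈ Submodule.span ℝ (Set.range fun g => ρ g y) := by
    intro g u hu
    have : Submodule.span ℝ (Set.range fun g => ρ g y) ≤
        (Submodule.span ℝ (Set.range fun g => ρ g y)).comap (ρ g) := by
      rw [Submodule.span_le]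
      rintro _ ⟨h, rfl⟩
      apply Submodule.subset_span
      exact ⟨g * h, by simp⟩
    exact this hu
  rcases hirr (Submodule.span ℝ (Set.range fun g => ρ g y)) hinv with h | h
  · exfalso
    apply hy
    have : y ∈ Submodule.span ℝ (Set.range fun g => ρ g y) :=
      Submodule.subset_span ⟨1, by simp⟩
    rw [h] at this
    simpa using this
  · exact h

theorem orth_zero {ρ : G →* Module.End ℝ E} (hirr : Irr ρ) {y a : E} (hy : y ≠ 0)
    (h : ∀ g, inner ℝ a (ρ g y) = 0) : a = 0 := by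
  have h1 : Submodule.span ℝ (Set.range fun g => ρ g y) ≤ (LinearMap.ker (innerₛₗ ℝ a)) := by
    rw [Submodule.span_le]
    rintro _ ⟨g, rfl⟩
    simpa using h g
  rw [span_top hirr hy] at h1
  have h2 : a ∈ LinearMap.ker (innerₛₗ ℝ a) := h1 trivial
  have h3 : inner ℝ a a = (0 : ℝ) := by simpa using h2
  exact inner_self_eq_zero.1 h3

theorem inner_le_of_norm {a z : E} (h : ∀ t : ℝ, 0 ≤ t → ‖a‖ ≤ ‖a - t • z‖) :
    inner ℝ a z ≤ (0 : ℝ) := by
  by_contra hc
  push Not at hc
  set s : ℝ := inner ℝ a z with hs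
  set t : ℝ := s / (‖z‖ ^ 2 + 1) with ht
  have hden : 0 < ‖z‖ ^ 2 + 1 := by positivity
  have htpos : 0 < t := div_pos hc hden
  have h1 := h t htpos.le
  have h2 : ‖a‖ ^ 2 ≤ ‖a - t • z‖ ^ 2 := by gcongr
  rw [norm_sub_sq_real, inner_smul_right, norm_smul, Real.norm_eq_abs, abs_of_pos htpos, ← hs] at h2
  have h3 : t * (‖z‖ ^ 2 + 1) = s := by
    rw [ht]; field_simp
  nlinarith [mul_pos htpos htpos, mul_nonneg htpos.le (sq_nonneg ‖z‖), sq_nonneg t]

/-- The cone of the points reached from `x`. -/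
def Reach (ρ : G →* Module.End ℝ E) (x : E) : Set E :=
  {y | ∃ l, Ok l ∧ ∃ c : ℝ, 0 < c ∧ y = c • W ρ l x}

theorem reach_step {ρ : G →* Module.End ℝ E} {x y : E} (hy : y ∈ Reach ρ x) (g : G) {t : ℝ}
    (ht : 0 ≤ t) : y + t • ρ g y ∈ Reach ρ x := by
  obtain ⟨l, hl, c, hc, rfl⟩ := hy
  have h1 : 0 < 1 + t := by linarith
  refine ⟨(g, t / (1 + t)) :: l, ok_cons (div_nonneg ht h1.le) ?_ hl, c * (1 + t),
    mul_pos hc h1, ?_⟩
  · show t / (1 + t) ≤ 1
    rw [div_le_one h1]; linarith
  · rw [W_cons, Module.End.mul_apply, T_apply]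
    simp only [map_smul, smul_add, smul_smul]
    congr 2
    · field_simp; ring
    · field_simp

theorem dense_reach {ρ : G →* Module.End ℝ E} (hirr : Irr ρ) (hsum : ∀ v, ∑ g, ρ g v = 0)
    {x : E} (hx : x ≠ 0) : Dense (Reach ρ x) := by
  set C := closure (Reach ρ x) with hC
  have hstep : ∀ y ∈ C, ∀ g : G, ∀ t : ℝ, 0 ≤ t → y + t • ρ g y ∈ C := by
    intro y hy g t ht
    have hcont : Continuous fun y : E => y + t • ρ g y :=
      continuous_id.add ((LinearMap.continuous_of_finiteDimensional (ρ g)).const_smul t)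
    exact map_mem_closure (f := fun y : E => y + t • ρ g y) hcont hy
      (fun z hz => reach_step hz g ht)
  have hscale : ∀ y ∈ Reach ρ x, ∀ t : ℝ, 0 < t → t • y ∈ Reach ρ x := by
    rintro y ⟨l, hl, c, hc, rfl⟩ t ht
    exact ⟨l, hl, t * c, mul_pos ht hc, by rw [smul_smul]⟩
  have hxR : x ∈ Reach ρ x := ⟨[], ok_nil, 1, one_pos, by simp⟩
  have hgR : ∀ g, ρ g x ∈ Reach ρ x := fun g =>
    ⟨[(g, 1)], ok_cons zero_le_one le_rfl ok_nil, 1, one_pos, by simp [T_apply]⟩
  have hzero : (0 : E) ∈ C := by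
    have h1 : Filter.Tendsto (fun n : ℕ => (1 / ((n : ℝ) + 1)) • x) Filter.atTop
        (nhds ((0 : ℝ) • x)) :=
      (tendsto_one_div_add_atTop_nhds_zero_nat (𝕜 := ℝ)).smul_const x
    rw [zero_smul] at h1
    exact mem_closure_of_tendsto h1 (Filter.Eventually.of_forall fun n =>
      hscale x hxR _ (by positivity))
  have hnn : ∀ y ∈ Reach ρ x, ∀ t : ℝ, 0 ≤ t → t • y ∈ C := by
    intro y hy t ht
    rcases ht.eq_or_lt with rfl | ht
    · simpa using hzero
    · exact subset_closure (hscale y hy t ht)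
  intro w
  by_contra hw
  obtain ⟨y, hyC, hyd⟩ := (isClosed_closure (s := Reach ρ x)).exists_infDist_eq_dist
    ⟨0, hzero⟩ w
  have hmin : ∀ z ∈ C, ‖w - y‖ ≤ ‖w - z‖ := by
    intro z hz
    have := Metric.infDist_le_dist_of_mem (x := w) hz
    rw [hyd, dist_eq_norm, dist_eq_norm] at this
    exact this
  have hne : w ≠ y := by
    rintro rfl
    exact hw hyC
  by_cases hy0 : y = 0
  · subst hy0
    have hle : ∀ g, inner ℝ w (ρ g x) ≤ (0 : ℝ) := by
      intro g
      apply inner_le_of_norm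
      intro t ht
      have := hmin _ (hnn _ (hgR g) t ht)
      simpa using this
    have hs : ∑ g, inner ℝ w (ρ g x) = (0 : ℝ) := by
      rw [← inner_sum, hsum, inner_zero_right]
    have hz := (Finset.sum_eq_zero_iff_of_nonpos (fun g _ => hle g)).1 hs
    exact hne (orth_zero hirr hx fun g => hz g (Finset.mem_univ g))
  · have hle : ∀ g, inner ℝ (w - y) (ρ g y) ≤ (0 : ℝ) := by
      intro g
      apply inner_le_of_norm
      intro t ht
      have := hmin _ (hstep y hyC g t ht)
      rwa [← sub_sub] at this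
    have hs : ∑ g, inner ℝ (w - y) (ρ g y) = (0 : ℝ) := by
      rw [← inner_sum, hsum, inner_zero_right]
    have hz := (Finset.sum_eq_zero_iff_of_nonpos (fun g _ => hle g)).1 hs
    have := orth_zero hirr hy0 fun g => hz g (Finset.mem_univ g)
    exact hne (sub_eq_zero.1 this)

end Euclid

end Pool.Agent.Q11.Mix
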