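import Mathlib
import Pool.Agent.Q11.Mix.Core

/-!
# The set of points from which a given point is reached has interior
-/

namespace Pool.Agent.Q11.Mix

open Finset

set_option linter.unusedSectionVars false

variable {G : Type*} [Group G] [Fintype G]

section Alg

variable {V : Type*} [AddCommGroup V] [Module ℝ V]

/-- The truncated geometric series of `-(t ρ(g))`. -/
noncomputable def P (ρ : G →* Module.End ℝ V) (N : ℕ) (g : G) (t : ℝ) : Module.End ℝ V :=
  ∑ i ∈ range N, (-(t • ρ g)) ^ i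

theorem P_apply (ρ : G →* Module.End ℝ V) (N : ℕ) (g : G) (t : ℝ) (v : V) :
    P ρ N g t v = ∑ i ∈ range N, (-t) ^ i • ρ (g ^ i) v := by
  simp only [P, LinearMap.sum_apply]
  refine Finset.sum_congr rfl fun i _ => ?_
  rw [← neg_smul, smul_pow, LinearMap.smul_apply, map_pow]

theorem P_zero (ρ : G →* Module.End ℝ V) {N : ℕ} (hN : 0 < N) (g : G) (v : V) :
    P ρ N g 0 v = v := by
  rw [P_apply, Finset.sum_eq_single 0]
  · simp
  · intro i _ hi
    simp [hi]
  · intro h
    exact absurd (Finset.mem_range.2 hN) h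

theorem mul_P (ρ : G →* Module.End ℝ V) {N : ℕ} (hN : N = 2 * Fintype.card G) (g : G) (t : ℝ)
    (v : V) : P ρ N g t v + t • ρ g (P ρ N g t v) = (1 - t ^ N) • v := by
  have h1 : (1 - (-(t • ρ g))) * P ρ N g t = 1 - (-(t • ρ g)) ^ N := by
    rw [P]
    exact mul_neg_geom_sum _ _
  have h2 : (-(t • ρ g)) ^ N = (t ^ N) • (1 : Module.End ℝ V) := by
    rw [hN, pow_mul, neg_sq, ← pow_mul, smul_pow, ← map_pow, mul_comm, pow_mul g, pow_card_eq_one,
      one_pow, map_one]
  rw [h2] at h1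
  have h3 := congrArg (fun A : Module.End ℝ V => A v) h1
  simp only [Module.End.mul_apply, LinearMap.sub_apply, Module.End.one_apply, LinearMap.neg_apply,
    LinearMap.smul_apply] at h3
  rw [sub_smul, one_smul, ← h3]
  abel

/-- The backward point: the product of the series applied to `k`. -/
noncomputable def F (ρ : G →* Module.End ℝ V) (N : ℕ) (k : V) : List G → (G → ℝ) → V
  | [], _ => k
  | g :: l, q => P ρ N g (q g) (F ρ N k l q)

theorem F_return (ρ : G →* Module.End ℝ V) {N : ℕ} (hN : N = 2 * Fintype.card G) (k : V)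
    (q : G → ℝ) (hq : ∀ g, 0 < q g ∧ q g < 1) :
    ∀ l : List G, ∃ m, Ok m ∧ ∃ c : ℝ, 0 < c ∧ W ρ m (F ρ N k l q) = c • k
  | [] => ⟨[], ok_nil, 1, one_pos, by simp [F]⟩
  | g :: l => by
    obtain ⟨m, hm, c, hc, h⟩ := F_return ρ hN k q hq l
    obtain ⟨h0, h1⟩ := hq g
    have hp : 0 < 1 + q g := by linarith
    have hcard : 0 < Fintype.card G := Fintype.card_pos
    have hN0 : N ≠ 0 := by omega
    have hpow : 0 < 1 - q g ^ N := by
      have := pow_lt_one₀ h0.le h1 hN0
      linarith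
    refine ⟨m ++ [(g, q g / (1 + q g))], ok_append hm (ok_cons (div_nonneg h0.le hp.le) ?_ ok_nil),
      (1 + q g)⁻¹ * (1 - q g ^ N) * c, by positivity, ?_⟩
    · show q g / (1 + q g) ≤ 1
      rw [div_le_one hp]; linarith
    · have h2 : T ρ (g, q g / (1 + q g)) (P ρ N g (q g) (F ρ N k l q)) =
          ((1 + q g)⁻¹ * (1 - q g ^ N)) • F ρ N k l q := by
        rw [mul_smul, ← mul_P ρ hN g (q g), T_apply, smul_add, smul_smul]
        congr 2
        · field_simp; ring
        · field_simp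
      rw [W_append, Module.End.mul_apply, W_cons, W_nil, mul_one, F, h2, map_smul, h, smul_smul]

theorem F_notMem [DecidableEq G] (ρ : G →* Module.End ℝ V) {N : ℕ} (hN : 0 < N) (k : V) (g : G)
    (s : ℝ) : ∀ l : List G, g ∉ l → F ρ N k l (s • Pi.single g 1) = k
  | [], _ => rfl
  | h :: l, hl => by
    have h1 : h ≠ g := fun hh => hl (hh ▸ List.mem_cons_self)
    have h2 : (s • Pi.single g (1 : ℝ) : G → ℝ) h = 0 := by
      simp [h1]
    rw [F, h2, P_zero ρ hN, F_notMem ρ hN k g s l fun hh => hl (List.mem_cons_of_mem _ hh)]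

theorem F_mem [DecidableEq G] (ρ : G →* Module.End ℝ V) {N : ℕ} (hN : 0 < N) (k : V) (g : G)
    (s : ℝ) : ∀ l : List G, l.Nodup → g ∈ l → F ρ N k l (s • Pi.single g 1) = P ρ N g s k
  | [], _, h => by simp at h
  | h :: l, hn, hl => by
    rw [List.nodup_cons] at hn
    by_cases h1 : h = g
    · subst h1
      rw [F, F_notMem ρ hN k h s l hn.1]
      simp
    · have h2 : (s • Pi.single g (1 : ℝ) : G → ℝ) h = 0 := by
        simp [h1]
      have h3 : g ∈ l := by
        rcases List.mem_cons.1 hl with h4 | h4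
        · exact absurd h4.symm h1
        · exact h4
      rw [F, h2, P_zero ρ hN, F_mem ρ hN k g s l hn.2 h3]

end Alg

section Euclid

variable {E : Type*} [NormedAddCommGroup E] [InnerProductSpace ℝ E] [FiniteDimensional ℝ E]

theorem contDiff_F (ρ : G →* Module.End ℝ E) (N : ℕ) (k : E) :
    ∀ l : List G, ContDiff ℝ 1 (F ρ N k l)
  | [] => contDiff_const
  | g :: l => by
    have ih := contDiff_F ρ N k l
    have h1 : F ρ N k (g :: l) = fun q => ∑ i ∈ range N, (-(q g)) ^ i •
        LinearMap.toContinuousLinearMap (ρ (g ^ i)) (F ρ N k l q) := by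
      funext q
      rw [F, P_apply]
      rfl
    rw [h1]
    refine ContDiff.sum fun i _ => ?_
    exact (((contDiff_apply ℝ ℝ g).neg).pow i).smul
      ((LinearMap.toContinuousLinearMap (ρ (g ^ i))).contDiff.comp ih)

theorem hasDerivAt_P (ρ : G →* Module.End ℝ E) {N : ℕ} (hN : 2 ≤ N) (g : G) (k : E) :
    HasDerivAt (fun s : ℝ => P ρ N g s k) (-(ρ g k)) 0 := by
  have h1 : (fun s : ℝ => P ρ N g s k) = fun s : ℝ => ∑ i ∈ range N, (-s) ^ i • ρ (g ^ i) k := by
    funext s
    exact P_apply ρ N g s k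
  rw [h1]
  have h2 : HasDerivAt (fun s : ℝ => ∑ i ∈ range N, (-s) ^ i • ρ (g ^ i) k)
      (∑ i ∈ range N, ((i : ℝ) * (-(0 : ℝ)) ^ (i - 1) * (-1)) • ρ (g ^ i) k) 0 := by
    refine HasDerivAt.fun_sum fun i _ => ?_
    exact (((hasDerivAt_id (0 : ℝ)).neg).pow i).smul_const _
  have h3 : (∑ i ∈ range N, ((i : ℝ) * (-(0 : ℝ)) ^ (i - 1) * (-1)) • ρ (g ^ i) k) =
      -(ρ g k) := by
    rw [Finset.sum_eq_single 1]
    · simp
    · intro i _ hi
      rcases Nat.lt_or_gt_of_ne hi with h | h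
      · have : i = 0 := by omega
        simp [this]
      · have : i - 1 ≠ 0 := by omega
        simp [this]
    · intro h
      exact absurd (Finset.mem_range.2 (by omega)) h
  rwa [h3] at h2

theorem interior_back {ρ : G →* Module.End ℝ E} (hirr : Irr ρ) {k : E} (hk : k ≠ 0) :
    ∃ O : Set E, IsOpen O ∧ O.Nonempty ∧
      ∀ y ∈ O, ∃ m, Ok m ∧ ∃ c : ℝ, 0 < c ∧ W ρ m y = c • k := by
  classical
  set N : ℕ := 2 * Fintype.card G with hN
  have hcard : 0 < Fintype.card G := Fintype.card_pos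
  have hN2 : 2 ≤ N := by omega
  set l : List G := (Finset.univ : Finset G).toList with hl
  have hnd : l.Nodup := Finset.nodup_toList _
  have hmem : ∀ g, g ∈ l := fun g => by simp [hl]
  have hcd := contDiff_F ρ N k l
  have hstrict : HasStrictFDerivAt (F ρ N k l) (fderiv ℝ (F ρ N k l) 0) 0 :=
    hcd.contDiffAt.hasStrictFDerivAt (by norm_num)
  have hval : ∀ g, fderiv ℝ (F ρ N k l) 0 (Pi.single g 1) = -(ρ g k) := by
    intro g
    have h1 : HasDerivAt (fun s : ℝ => s • (Pi.single g (1 : ℝ) : G → ℝ))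
        ((1 : ℝ) • (Pi.single g (1 : ℝ) : G → ℝ)) 0 :=
      (hasDerivAt_id (0 : ℝ)).smul_const _
    rw [one_smul] at h1
    have h2 : HasFDerivAt (F ρ N k l) (fderiv ℝ (F ρ N k l) 0)
        ((0 : ℝ) • (Pi.single g (1 : ℝ) : G → ℝ)) := by
      rw [zero_smul]
      exact hstrict.hasFDerivAt
    have h3 := h2.comp_hasDerivAt (0 : ℝ) h1
    have h4 : (F ρ N k l ∘ fun s : ℝ => s • (Pi.single g (1 : ℝ) : G → ℝ)) =
        fun s : ℝ => P ρ N g s k := by
      funext s
      exact F_mem ρ (by omega) k g s l hnd (hmem g)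
    rw [h4] at h3
    exact h3.unique (hasDerivAt_P ρ hN2 g k)
  have hrange : (fderiv ℝ (F ρ N k l) 0).range = ⊤ := by
    rw [eq_top_iff, ← span_top hirr hk, Submodule.span_le]
    rintro _ ⟨g, rfl⟩
    refine ⟨-(Pi.single g 1), ?_⟩
    show fderiv ℝ (F ρ N k l) 0 (-(Pi.single g 1)) = _
    rw [map_neg, hval, neg_neg]
  set e := hstrict.implicitToOpenPartialHomeomorph (F ρ N k l) _ hrange with he
  set O' : Set (G → ℝ) := e.source ∩ {q | ∀ g, 0 < q g ∧ q g < 1} with hO'
  have hO'open : IsOpen O' := by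
    refine e.open_source.inter ?_
    have : {q : G → ℝ | ∀ g, 0 < q g ∧ q g < 1} = Set.pi Set.univ fun _ => Set.Ioo (0 : ℝ) 1 := by
      ext q
      simp
    rw [this]
    exact isOpen_set_pi Set.finite_univ fun _ _ => isOpen_Ioo
  have himg : IsOpen (e '' O') :=
    e.isOpen_image_of_subset_source hO'open Set.inter_subset_left
  refine ⟨Prod.fst '' (e '' O'), isOpenMap_fst _ himg, ?_, ?_⟩
  · rw [Set.image_nonempty, Set.image_nonempty]
    have h1 : e.source ∈ nhds (0 : G → ℝ) :=
      e.open_source.mem_nhds (hstrict.mem_implicitToOpenPartialHomeomorph_source hrange)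
    have h2 : Filter.Tendsto (fun ε : ℝ => (fun _ : G => ε)) (nhds 0) (nhds (0 : G → ℝ)) := by
      have : Continuous (fun ε : ℝ => (fun _ : G => ε)) := continuous_pi fun _ => continuous_id
      exact this.tendsto' 0 0 rfl
    have h3 : ∀ᶠ ε : ℝ in nhdsWithin 0 (Set.Ioi 0), (fun _ : G => ε) ∈ e.source :=
      (h2.mono_left nhdsWithin_le_nhds) h1
    have h4 : ∀ᶠ ε : ℝ in nhdsWithin 0 (Set.Ioi 0), ε ∈ Set.Ioo (0 : ℝ) 1 :=
      Ioo_mem_nhdsGT one_pos
    obtain ⟨ε, h5, h6⟩ := (h3.and h4).exists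
    exact ⟨fun _ => ε, h5, fun _ => ⟨h6.1, h6.2⟩⟩
  · rintro _ ⟨_, ⟨q, hq, rfl⟩, rfl⟩
    have h1 : (e q).1 = F ρ N k l q := by
      rw [he]
      exact hstrict.implicitToOpenPartialHomeomorph_fst hrange q
    rw [h1]
    exact F_return ρ hN k q hq.2 l

/-- Any non-zero vector is carried exactly to a positive multiple of any other one. -/
theorem exists_word {ρ : G →* Module.End ℝ E} (hirr : Irr ρ) (hsum : ∀ v, ∑ g, ρ g v = 0)
    {x k : E} (hx : x ≠ 0) (hk : k ≠ 0) :
    ∃ m, Ok m ∧ ∃ c : ℝ, 0 < c ∧ W ρ m x = c • k := by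
  obtain ⟨O, hO, hne, h⟩ := interior_back hirr hk
  obtain ⟨y, hy, hyR⟩ := (dense_reach hirr hsum hx).exists_mem_open hO hne
  obtain ⟨l, hl, c, hc, rfl⟩ := hy
  obtain ⟨m, hm, d, hd, hmd⟩ := h _ hyR
  refine ⟨m ++ l, ok_append hm hl, c⁻¹ * d, by positivity, ?_⟩
  rw [map_smul] at hmd
  rw [W_append, Module.End.mul_apply, mul_smul, ← hmd, smul_smul, inv_mul_cancel₀ hc.ne', one_smul]

/-- An irreducible representation in which some group element has the eigenvalue `-1` is killed
by a word. -/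
theorem kill_irr {ρ : G →* Module.End ℝ E} (hirr : Irr ρ) (hsum : ∀ v, ∑ g, ρ g v = 0)
    {g : G} {e : E} (he : e ≠ 0) (hge : ρ g e = -e) : ∃ l, Ok l ∧ W ρ l = 0 := by
  have step : ∀ l, Ok l → W ρ l ≠ 0 → ∃ l', Ok l' ∧
      Module.finrank ℝ (LinearMap.ker (W ρ l)) < Module.finrank ℝ (LinearMap.ker (W ρ l')) := by
    intro l hl h0
    by_cases hker : LinearMap.ker (W ρ l) = ⊥
    · have hinj : Function.Injective (W ρ l) := LinearMap.ker_eq_bot.1 hker
      have hsurj : Function.Surjective (W ρ l) := LinearMap.injective_iff_surjective.1 hinj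
      obtain ⟨v, hv⟩ := hsurj e
      refine ⟨(g, 1 / 2) :: l, ok_cons (by norm_num) (by norm_num) hl, ?_⟩
      apply Submodule.finrank_lt_finrank_of_lt
      rw [hker, bot_lt_iff_ne_bot]
      intro hbot
      have h1 : v ∈ LinearMap.ker (W ρ ((g, 1 / 2) :: l)) := by
        rw [LinearMap.mem_ker, W_cons, Module.End.mul_apply, hv, T_apply]
        simp only
        rw [hge, smul_neg, ← sub_eq_add_neg, ← sub_smul]
        norm_num
      rw [hbot, Submodule.mem_bot] at h1
      rw [h1, map_zero] at hv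
      exact he hv.symm
    · obtain ⟨k, hk, hk0⟩ := Submodule.exists_mem_ne_zero_of_ne_bot hker
      have h1 : ∃ v, W ρ l v ≠ 0 := by
        by_contra hc
        push Not at hc
        exact h0 (LinearMap.ext hc)
      obtain ⟨v, hv⟩ := h1
      obtain ⟨m, hm, c, hc, hmc⟩ := exists_word hirr hsum hv hk0
      refine ⟨l ++ (m ++ l), ok_append hl (ok_append hm hl), ?_⟩
      apply Submodule.finrank_lt_finrank_of_lt
      refine lt_of_le_of_ne ?_ ?_
      · intro z hz
        rw [LinearMap.mem_ker] at hz ⊢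
        rw [W_append, W_append, Module.End.mul_apply, Module.End.mul_apply, hz, map_zero, map_zero]
      · intro heq
        have h2 : v ∈ LinearMap.ker (W ρ (l ++ (m ++ l))) := by
          rw [LinearMap.mem_ker, W_append, W_append, Module.End.mul_apply, Module.End.mul_apply,
            hmc, map_smul, LinearMap.mem_ker.1 hk, smul_zero]
        rw [← heq, LinearMap.mem_ker] at h2
        exact hv h2
  have main : ∀ n : ℕ, ∀ l, Ok l →
      Module.finrank ℝ E - Module.finrank ℝ (LinearMap.ker (W ρ l)) ≤ n →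
      ∃ l, Ok l ∧ W ρ l = 0 := by
    intro n
    induction n with
    | zero =>
      intro l hl hn
      by_contra hcon
      push Not at hcon
      obtain ⟨l', hl', hlt⟩ := step l hl (hcon l hl)
      have := Submodule.finrank_le (LinearMap.ker (W ρ l'))
      omega
    | succ n ih =>
      intro l hl hn
      by_cases h0 : W ρ l = 0
      · exact ⟨l, hl, h0⟩
      · obtain ⟨l', hl', hlt⟩ := step l hl h0
        have := Submodule.finrank_le (LinearMap.ker (W ρ l'))
        exact ih l' hl' (by omega)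
  exact main _ [] ok_nil le_rfl

end Euclid

end Pool.Agent.Q11.Mix
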