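import Mathlib
import Pool.Agent.Q11.Mix.Interior

/-!
# Every finite group without non-trivial quotients of odd order is mixable
-/

namespace Pool.Agent.Q11.Mix

open Finset

set_option linter.unusedSectionVars false

universe u v

variable {G : Type u} [Group G] [Fintype G]

/-- The only normal subgroup of odd index is the whole group. -/
def NoOddQuotient (G : Type u) [Group G] : Prop :=
  ∀ N : Subgroup G, N.Normal → Odd N.index → N = ⊤

section

variable {V : Type v} [AddCommGroup V] [Module ℝ V]

theorem neg_eigen (hG : NoOddQuotient G) {ρ : G →* Module.End ℝ V}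
    (hsum : ∀ v, ∑ g, ρ g v = 0) [Nontrivial V] : ∃ g, ∃ e : V, e ≠ 0 ∧ ρ g e = -e := by
  have hne : MonoidHom.ker ρ ≠ ⊤ := by
    intro h
    obtain ⟨v, hv⟩ := exists_ne (0 : V)
    have h1 := hsum v
    have h2 : ∀ g, ρ g v = v := by
      intro g
      have : g ∈ MonoidHom.ker ρ := by rw [h]; trivial
      rw [MonoidHom.mem_ker.1 this, Module.End.one_apply]
    simp only [h2, Finset.sum_const, Finset.card_univ] at h1
    rw [← Nat.cast_smul_eq_nsmul ℝ, smul_eq_zero] at h1
    rcases h1 with h1 | h1
    · exact Fintype.card_ne_zero (Nat.cast_eq_zero.1 h1)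
    · exact hv h1
  have hodd : ¬ Odd (MonoidHom.ker ρ).index := fun h => hne (hG _ inferInstance h)
  rw [Nat.not_odd_iff_even, even_iff_two_dvd] at hodd
  obtain ⟨q, hq⟩ := exists_prime_orderOf_dvd_card' (G := G ⧸ MonoidHom.ker ρ) 2 hodd
  obtain ⟨g, rfl⟩ := QuotientGroup.mk_surjective q
  have h2 : g ^ 2 ∈ MonoidHom.ker ρ := by
    rw [← QuotientGroup.eq_one_iff, QuotientGroup.mk_pow, ← hq, pow_orderOf_eq_one]
  have h1 : g ∉ MonoidHom.ker ρ := by
    intro h
    rw [← QuotientGroup.eq_one_iff] at h
    rw [h, orderOf_one] at hq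
    omega
  have h3 : ∃ v, ρ g v ≠ v := by
    by_contra hc
    push Not at hc
    exact h1 (MonoidHom.mem_ker.2 (LinearMap.ext hc))
  obtain ⟨v, hv⟩ := h3
  refine ⟨g, ρ g v - v, sub_ne_zero.2 hv, ?_⟩
  have h4 : ρ g (ρ g v) = v := by
    rw [← Module.End.mul_apply, ← map_mul, ← sq, MonoidHom.mem_ker.1 h2, Module.End.one_apply]
  rw [map_sub, h4, neg_sub]

/-- The restriction of a representation to an invariant subspace. -/
noncomputable def sub (ρ : G →* Module.End ℝ V) (U : Submodule ℝ V)
    (hU : ∀ g, ∀ u ∈ U, ρ g u ∈ U) : G →* Module.End ℝ U where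
  toFun g := (ρ g).restrict (hU g)
  map_one' := by ext u; simp
  map_mul' g h := by ext u; simp

theorem sub_apply (ρ : G →* Module.End ℝ V) (U : Submodule ℝ V)
    (hU : ∀ g, ∀ u ∈ U, ρ g u ∈ U) (g : G) (u : U) : (sub ρ U hU g u : V) = ρ g u := rfl

theorem W_sub (ρ : G →* Module.End ℝ V) (U : Submodule ℝ V)
    (hU : ∀ g, ∀ u ∈ U, ρ g u ∈ U) (u : U) :
    ∀ l, (W (sub ρ U hU) l u : V) = W ρ l u
  | [] => rfl
  | a :: l => by
    rw [W_cons, W_cons, Module.End.mul_apply, Module.End.mul_apply, T_apply, T_apply,
      ← W_sub ρ U hU u l, Submodule.coe_add, Submodule.coe_smul, Submodule.coe_smul, sub_apply]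

/-- The representation on the quotient by an invariant subspace. -/
noncomputable def quo (ρ : G →* Module.End ℝ V) (U : Submodule ℝ V)
    (hU : ∀ g, ∀ u ∈ U, ρ g u ∈ U) : G →* Module.End ℝ (V ⧸ U) where
  toFun g := U.mapQ U (ρ g) (fun u hu => hU g u hu)
  map_one' := by
    apply LinearMap.ext
    intro x
    obtain ⟨v, rfl⟩ := U.mkQ_surjective x
    simp
  map_mul' g h := by
    apply LinearMap.ext
    intro x
    obtain ⟨v, rfl⟩ := U.mkQ_surjective x
    simp

theorem quo_apply (ρ : G →* Module.End ℝ V) (U : Submodule ℝ V)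
    (hU : ∀ g, ∀ u ∈ U, ρ g u ∈ U) (g : G) (v : V) :
    quo ρ U hU g (U.mkQ v) = U.mkQ (ρ g v) := rfl

theorem W_quo (ρ : G →* Module.End ℝ V) (U : Submodule ℝ V)
    (hU : ∀ g, ∀ u ∈ U, ρ g u ∈ U) (v : V) :
    ∀ l, W (quo ρ U hU) l (U.mkQ v) = U.mkQ (W ρ l v)
  | [] => rfl
  | a :: l => by
    rw [W_cons, W_cons, Module.End.mul_apply, Module.End.mul_apply, T_apply, T_apply,
      W_quo ρ U hU v l, map_add, map_smul, map_smul, quo_apply]

/-- Transport of a representation along a linear equivalence. -/
noncomputable def conj {E : Type*} [AddCommGroup E] [Module ℝ E] (e : V ≃ₗ[ℝ] E)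
    (ρ : G →* Module.End ℝ V) : G →* Module.End ℝ E where
  toFun g := e.toLinearMap ∘ₗ ρ g ∘ₗ e.symm.toLinearMap
  map_one' := by ext x; simp
  map_mul' g h := by ext x; simp

theorem conj_apply {E : Type*} [AddCommGroup E] [Module ℝ E] (e : V ≃ₗ[ℝ] E)
    (ρ : G →* Module.End ℝ V) (g : G) (v : V) : conj e ρ g (e v) = e (ρ g v) := by
  simp [conj]

theorem W_conj {E : Type*} [AddCommGroup E] [Module ℝ E] (e : V ≃ₗ[ℝ] E)
    (ρ : G →* Module.End ℝ V) (v : V) : ∀ l, W (conj e ρ) l (e v) = e (W ρ l v)
  | [] => rfl
  | a :: l => by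
    rw [W_cons, W_cons, Module.End.mul_apply, Module.End.mul_apply, T_apply, T_apply,
      W_conj e ρ v l, map_add, map_smul, map_smul, conj_apply]

end

/-- Every finite-dimensional real representation without trivial constituents is killed by a
word. -/
theorem kill (hG : NoOddQuotient G) : ∀ (n : ℕ) (V : Type v) [AddCommGroup V] [Module ℝ V]
    [FiniteDimensional ℝ V] (ρ : G →* Module.End ℝ V), Module.finrank ℝ V = n →
    (∀ v, ∑ g, ρ g v = 0) → ∃ l, Ok l ∧ W ρ l = 0 := by
  intro n
  induction n using Nat.strong_induction_on with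
  | _ n ih =>
    intro V _ _ _ ρ hn hsum
    rcases subsingleton_or_nontrivial V with hs | hnt
    · exact ⟨[], ok_nil, LinearMap.ext fun v => Subsingleton.elim _ _⟩
    by_cases hirr : Irr ρ
    · set e : V ≃ₗ[ℝ] EuclideanSpace ℝ (Fin n) := LinearEquiv.ofFinrankEq _ _ (by simp [hn]) with he
      obtain ⟨g, v, hv, hgv⟩ := neg_eigen hG hsum
      have h1 : Irr (conj e ρ) := by
        intro U hU
        have hinv : ∀ g, ∀ w ∈ U.comap e.toLinearMap, ρ g w ∈ U.comap e.toLinearMap := by
          intro g w hw
          have := hU g (e w) hw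
          rw [conj_apply] at this
          exact this
        rcases hirr (U.comap e.toLinearMap) hinv with h | h
        · left
          rw [eq_bot_iff]
          intro x hx
          have : e.symm x ∈ U.comap e.toLinearMap := by simpa using hx
          rw [h, Submodule.mem_bot] at this
          rw [Submodule.mem_bot]
          simpa using this
        · right
          rw [eq_top_iff]
          intro x _
          have : e.symm x ∈ U.comap e.toLinearMap := by rw [h]; trivial
          simpa using this
      have h2 : ∀ x, ∑ g, conj e ρ g x = 0 := by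
        intro x
        obtain ⟨w, rfl⟩ := e.surjective x
        simp only [conj_apply]
        rw [← map_sum, hsum, map_zero]
      have h3 : conj e ρ g (e v) = -(e v) := by rw [conj_apply, hgv, map_neg]
      obtain ⟨l, hl, hW⟩ := kill_irr h1 h2 (by simpa using hv) h3
      refine ⟨l, hl, LinearMap.ext fun w => ?_⟩
      have h4 := W_conj e ρ w l
      rw [hW, LinearMap.zero_apply] at h4
      rw [LinearMap.zero_apply]
      exact e.injective (by rw [← h4, map_zero])
    · unfold Irr at hirr
      push Not at hirr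
      obtain ⟨U, hU, hbot, htop⟩ := hirr
      have hltU : Module.finrank ℝ U < n := by
        rw [← hn]
        exact Submodule.finrank_lt htop
      have hltQ : Module.finrank ℝ (V ⧸ U) < n := by
        have h1 := Submodule.finrank_quotient_add_finrank U
        have h2 : 0 < Module.finrank ℝ U := by
          rw [Nat.pos_iff_ne_zero]
          intro h0
          exact hbot (Submodule.finrank_eq_zero.1 h0)
        omega
      obtain ⟨l1, hl1, hW1⟩ := ih _ hltU U (sub ρ U hU) rfl (by
        intro u
        apply Subtype.ext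
        rw [Submodule.coe_sum, Submodule.coe_zero]
        simp only [sub_apply]
        exact hsum u)
      obtain ⟨l2, hl2, hW2⟩ := ih _ hltQ (V ⧸ U) (quo ρ U hU) rfl (by
        intro x
        obtain ⟨w, rfl⟩ := U.mkQ_surjective x
        simp only [quo_apply]
        rw [← map_sum, hsum, map_zero])
      refine ⟨l1 ++ l2, ok_append hl1 hl2, LinearMap.ext fun w => ?_⟩
      have h1 : W ρ l2 w ∈ U := by
        have := W_quo ρ U hU w l2
        rw [hW2, LinearMap.zero_apply] at this
        rw [← Submodule.ker_mkQ U, LinearMap.mem_ker, ← this]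
      have h2 := W_sub ρ U hU ⟨W ρ l2 w, h1⟩ l1
      rw [hW1, LinearMap.zero_apply, Submodule.coe_zero] at h2
      rw [W_append, Module.End.mul_apply, LinearMap.zero_apply]
      exact h2.symm

/-- The law of the product of a word. -/
noncomputable def dist [DecidableEq G] : List (G × ℝ) → G → ℝ
  | [], x => if x = 1 then 1 else 0
  | a :: l, x => (1 - a.2) * dist l x + a.2 * dist l (a.1⁻¹ * x)

theorem W_eq_sum [DecidableEq G] {V : Type v} [AddCommGroup V] [Module ℝ V]
    (ρ : G →* Module.End ℝ V) (v : V) : ∀ l, W ρ l v = ∑ x, dist l x • ρ x v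
  | [] => by
    simp [dist]
  | a :: l => by
    rw [W_cons, Module.End.mul_apply, T_apply, W_eq_sum ρ v l]
    simp only [dist, add_smul, Finset.sum_add_distrib]
    congr 1
    · rw [Finset.smul_sum]
      exact Finset.sum_congr rfl fun x _ => by rw [smul_smul]
    · rw [map_sum, Finset.smul_sum]
      refine Fintype.sum_equiv (Equiv.mulLeft a.1) _ _ fun x => ?_
      simp only [Equiv.coe_mulLeft, map_smul, inv_mul_cancel_left, map_mul, Module.End.mul_apply,
        smul_smul]

/-- The left translation of functions on a set with an action. -/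
noncomputable def reg (G : Type u) [Group G] (X : Type v) [MulAction G X] :
    G →* Module.End ℝ (X → ℝ) where
  toFun g := { toFun := fun f x => f (g⁻¹ • x), map_add' := fun _ _ => rfl,
               map_smul' := fun _ _ => rfl }
  map_one' := by ext f x; simp
  map_mul' g h := by
    apply LinearMap.ext
    intro f
    funext x
    simp [mul_smul]

theorem reg_apply {X : Type v} [MulAction G X] (g : G) (f : X → ℝ) (x : X) :
    reg G X g f x = f (g⁻¹ • x) := rfl

theorem exists_uniform [DecidableEq G] (hG : NoOddQuotient G) :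
    ∃ l : List (G × ℝ), Ok l ∧ ∀ x, dist l x = 1 / Fintype.card G := by
  set U : Submodule ℝ (G → ℝ) :=
    { carrier := {f | ∑ x, f x = 0}
      add_mem' := by
        intro a b ha hb
        change ∑ x, a x = 0 at ha
        change ∑ x, b x = 0 at hb
        change ∑ x, (a x + b x) = 0
        rw [Finset.sum_add_distrib, ha, hb, add_zero]
      zero_mem' := by
        change ∑ _x : G, (0 : ℝ) = 0
        simp
      smul_mem' := by
        intro c a ha
        change ∑ x, a x = 0 at ha
        change ∑ x, c * a x = 0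
        rw [← Finset.mul_sum, ha, mul_zero] } with hUdef
  have hmem : ∀ f : G → ℝ, f ∈ U ↔ ∑ x, f x = 0 := fun f => Iff.rfl
  have hU : ∀ g, ∀ f ∈ U, reg G G g f ∈ U := by
    intro g f hf
    rw [hmem] at hf ⊢
    simp only [reg_apply, smul_eq_mul]
    rw [← hf]
    exact Fintype.sum_equiv (Equiv.mulLeft g⁻¹) _ _ fun x => rfl
  obtain ⟨l, hl, hW⟩ := kill hG _ U (sub (reg G G) U hU) rfl (by
    intro f
    apply Subtype.ext
    rw [Submodule.coe_sum, Submodule.coe_zero]
    simp only [sub_apply]
    funext x
    rw [Finset.sum_apply, Pi.zero_apply]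
    simp only [reg_apply, smul_eq_mul]
    rw [← (hmem f.1).1 f.2]
    exact Fintype.sum_equiv ((Equiv.inv G).trans (Equiv.mulRight x)) _ _ fun g => rfl)
  refine ⟨l, hl, fun y => ?_⟩
  have hc : (Fintype.card G : ℝ) ≠ 0 := Nat.cast_ne_zero.2 Fintype.card_ne_zero
  set δ : G → ℝ := fun x => if x = 1 then 1 else 0 with hδ
  set κ : G → ℝ := fun _ => 1 / Fintype.card G with hκ
  have h1 : δ - κ ∈ U := by
    rw [hmem]
    simp only [Pi.sub_apply, Finset.sum_sub_distrib, hδ, hκ, Finset.sum_ite_eq', Finset.mem_univ,
      if_true, Finset.sum_const, Finset.card_univ, nsmul_eq_mul]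
    field_simp
    ring
  have h2 : W (reg G G) l (δ - κ) = 0 := by
    have := W_sub (reg G G) U hU ⟨_, h1⟩ l
    rw [hW, LinearMap.zero_apply, Submodule.coe_zero] at this
    exact this.symm
  have h3 : ∀ l, W (reg G G) l κ = κ := by
    intro l
    induction l with
    | nil => rfl
    | cons a l ih =>
      rw [W_cons, Module.End.mul_apply, ih, T_apply]
      have : reg G G a.1 κ = κ := rfl
      rw [this, ← add_smul]
      simp
  rw [map_sub, h3, sub_eq_zero] at h2
  have h4 := congrFun h2 y
  rw [W_eq_sum, Finset.sum_apply] at h4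
  simp only [Pi.smul_apply, reg_apply, smul_eq_mul, hδ, inv_mul_eq_one, mul_ite, mul_one,
    mul_zero] at h4
  rw [Finset.sum_ite_eq' Finset.univ y (fun x => dist l x), if_pos (Finset.mem_univ y)] at h4
  exact h4

/-- A word with uniform law excludes non-trivial quotients of odd order. -/
theorem noOddQuotient_of_uniform [DecidableEq G] {l : List (G × ℝ)} (hl : Ok l)
    (hunif : ∀ x, dist l x = 1 / Fintype.card G) : NoOddQuotient G := by
  intro N hN hodd
  have hinj : ∀ l : List (G × ℝ), Ok l → ∀ f : G ⧸ N → ℝ, W (reg G (G ⧸ N)) l f = 0 → f = 0 := by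
    intro l
    induction l with
    | nil => intro _ f hf; exact hf
    | cons a l ih =>
      intro hal f hf
      rw [W_cons, Module.End.mul_apply] at hf
      refine ih (fun b hb => hal b (List.mem_cons_of_mem _ hb)) f ?_
      generalize W (reg G (G ⧸ N)) l f = h at hf
      obtain ⟨hp0, hp1⟩ := hal a List.mem_cons_self
      rw [T_apply] at hf
      rcases hp0.eq_or_lt with h0 | h0
      · rw [← h0] at hf
        simpa using hf
      · set c : ℝ := (1 - a.2) / a.2 with hc
        have hc0 : 0 ≤ c := div_nonneg (by linarith) h0.le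
        have h1 : reg G (G ⧸ N) a.1 h = (-c) • h := by
          have : a.2 • (reg G (G ⧸ N) a.1 h) = a.2 • ((-c) • h) := by
            rw [smul_smul]
            have : a.2 * -c = -(1 - a.2) := by rw [hc]; field_simp
            rw [this, neg_smul, eq_neg_iff_add_eq_zero, add_comm]
            exact hf
          exact smul_right_injective _ h0.ne' this
        have h2 : ∀ n : ℕ, reg G (G ⧸ N) (a.1 ^ n) h = (-c) ^ n • h := by
          intro n
          induction n with
          | zero => simp
          | succ n ihn =>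
            rw [pow_succ, map_mul, Module.End.mul_apply, h1, map_smul, ihn, smul_smul, pow_succ,
              mul_comm]
        have h3 : reg G (G ⧸ N) (a.1 ^ N.index) h = h := by
          funext x
          rw [reg_apply]
          obtain ⟨y, rfl⟩ := QuotientGroup.mk_surjective x
          congr 1
          have hmemN : a.1 ^ N.index ∈ N := N.pow_index_mem a.1
          have : (a.1 ^ N.index)⁻¹ • (y : G ⧸ N) = (((a.1 ^ N.index)⁻¹ * y : G) : G ⧸ N) := rfl
          rw [this, QuotientGroup.mk_mul, (QuotientGroup.eq_one_iff _).2 (N.inv_mem hmemN), one_mul]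
        rw [h2] at h3
        rw [Odd.neg_pow hodd] at h3
        have h4 : (1 + c ^ N.index) • h = 0 := by
          rw [add_smul, one_smul]
          nth_rewrite 1 [← h3]
          rw [neg_smul, neg_add_cancel]
        rcases smul_eq_zero.1 h4 with h5 | h5
        · exfalso
          have : 0 ≤ c ^ N.index := pow_nonneg hc0 _
          linarith
        · exact h5
  by_contra hNtop
  have hex : ∃ g : G, g ∉ N := by
    by_contra hcon
    push Not at hcon
    exact hNtop (eq_top_iff.2 fun g _ => hcon g)
  obtain ⟨g, hg⟩ := hex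
  classical
  set δ : G ⧸ N → ℝ := fun x => if x = 1 then 1 else 0 with hδ
  have h1 : W (reg G (G ⧸ N)) l (δ - reg G (G ⧸ N) g δ) = 0 := by
    rw [W_eq_sum]
    simp only [hunif, map_sub, smul_sub, Finset.sum_sub_distrib]
    rw [sub_eq_zero]
    have : ∀ x, reg G (G ⧸ N) x (reg G (G ⧸ N) g δ) = reg G (G ⧸ N) (x * g) δ := by
      intro x
      rw [map_mul, Module.End.mul_apply]
    simp only [this]
    exact (Fintype.sum_equiv (Equiv.mulRight g) _ _ fun x => rfl).symm
  have h2 := hinj l hl _ h1
  have h3 := congrFun h2 1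
  simp only [Pi.sub_apply, Pi.zero_apply, reg_apply, hδ, if_true] at h3
  have h4 : (g⁻¹ • (1 : G ⧸ N)) ≠ 1 := by
    intro h5
    have h6 : (g⁻¹ • (1 : G ⧸ N)) = ((g⁻¹ : G) : G ⧸ N) := by
      have : (g⁻¹ • ((1 : G) : G ⧸ N)) = ((g⁻¹ * 1 : G) : G ⧸ N) := rfl
      rw [mul_one] at this
      exact this
    rw [h6, QuotientGroup.eq_one_iff] at h5
    exact hg (by simpa using h5)
  rw [if_neg h4] at h3
  norm_num at h3

end Pool.Agent.Q11.Mix
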